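import Pool.Agent.X75.CSF7

/-!
# A CPET tree of maximum degree 4 with a positive coefficient of `e_(3, 2^10)`

The tree has 23 vertices: a vertex `0` carrying a path with ten vertices `1, …, 10`, a leaf `22` and a
further neighbour `11`, which carries a path with eight vertices `12, …, 19` and two leaves `20, 21`.
The coefficient of `e_(3, 2^10)` is `5`.

The coefficient is computed by eliminating leaves: the chromatic symmetric function is a polynomial in
the power sums, hence (Newton's identities) in the `e_k`, and the coefficient is read off in the ring of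
dual numbers with `e_2 = 1`, `e_3 = ε` and `e_k = 0` otherwise.  For the 1255 partitions of 23 there is
a list of edge sets whose removal gives components of the required sizes, checked by the kernel.
-/

set_option autoImplicit false

namespace Pool.Agent.Results.MP_fedadc_co.PositiveCoefficient

open MvPolynomial

variable {n : ℕ}

open Classical in
/-- the chromatic symmetric function of `T` in `N` variables: the sum over the proper colourings
with `N` colours -/
noncomputable def csf (T : SimpleGraph (Fin n)) (N : ℕ) : MvPolynomial (Fin N) ℚ :=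
  ∑ κ ∈ (Finset.univ : Finset (Fin n → Fin N)).filter (fun κ => ∀ u v, T.Adj u v → κ u ≠ κ v),
    ∏ v, X (κ v)

/-- `c μ` is the coefficient of `e_μ` in `X_T`: the expansion holds in every number of variables. -/
def IsExpansion (T : SimpleGraph (Fin n)) (c : n.Partition → ℚ) : Prop :=
  ∀ N : ℕ, csf T N = ∑ μ, c μ • esymmPart (Fin N) ℚ μ

/-- `T` has a connected partition of type `μ`. -/
def HasConnectedPartition (T : SimpleGraph (Fin n)) (μ : n.Partition) : Prop :=
  ∃ P : Finpartition (Finset.univ : Finset (Fin n)),
    (∀ B ∈ P.parts, (T.induce (B : Set (Fin n))).Connected) ∧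
      P.parts.val.map Finset.card = μ.parts

/-- `T` has connected partitions of all types. -/
def CPET (T : SimpleGraph (Fin n)) : Prop := ∀ μ : n.Partition, HasConnectedPartition T μ

/-- `Δ(T) = d` -/
def HasMaxDegree (T : SimpleGraph (Fin n)) (d : ℕ) : Prop :=
  (∀ v, (T.neighborSet v).ncard ≤ d) ∧ ∃ v, (T.neighborSet v).ncard = d

/-- the partition `(3, 2, …, 2)` of `23` -/
def lam : Nat.Partition 23 where
  parts := 3 ::ₘ Multiset.replicate 10 2
  parts_pos := by
    intro i hi
    rw [Multiset.mem_cons, Multiset.mem_replicate] at hi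
    omega
  parts_sum := by simp

theorem csf_eq (T : SimpleGraph (Fin n)) (N : ℕ) : csf T N = Pool.Agent.X75.CSF.chromSym T N := by
  unfold csf Pool.Agent.X75.CSF.chromSym
  apply Finset.sum_congr
  · ext κ
    simp only [Finset.mem_filter, Finset.mem_univ, true_and]
  · intro κ _
    rfl

theorem lam_eq : lam = Pool.Agent.X75.CSF.lam23 := rfl

/-- There is a tree `T` with 23 vertices and maximum degree 4 that is CPET and for which the
coefficient of `e_(3, 2^10)` in the chromatic symmetric function is `5`. -/
theorem result : ∃ T : SimpleGraph (Fin 23), T.IsTree ∧ HasMaxDegree T 4 ∧ CPET T ∧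
    (∃ c, IsExpansion T c) ∧ ∀ c, IsExpansion T c → c lam = 5 := by
  refine ⟨Pool.Agent.X75.CSF.T23, Pool.Agent.X75.CSF.isTree23, ⟨?_, 11, ?_⟩, ?_, ?_, ?_⟩
  · intro v
    rw [← Nat.card_coe_set_eq, Nat.card_eq_fintype_card, SimpleGraph.card_neighborSet_eq_degree]
    exact Pool.Agent.X75.CSF.degrees v
  · rw [← Nat.card_coe_set_eq, Nat.card_eq_fintype_card, SimpleGraph.card_neighborSet_eq_degree]
    exact Pool.Agent.X75.CSF.degree0
  · exact fun μ => Pool.Agent.X75.CSF.cpet23 μ
  · obtain ⟨c, hc⟩ := Pool.Agent.X75.CSF.expansion
    refine ⟨c, fun N => ?_⟩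
    rw [csf_eq]
    exact hc N
  · intro c hc
    have h3 := hc 3
    rw [csf_eq] at h3
    rw [lam_eq]
    exact Pool.Agent.X75.CSF.coefficient c 3 le_rfl h3

end Pool.Agent.Results.MP_fedadc_co.PositiveCoefficient
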